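import Pool.Agent.Helper14.GS.St

set_option autoImplicit false

/-! Project GS, module B7: gaps between smooth numbers, choice of the parameters. -/

namespace Pool.Agent.Helper95.GS

open Pool.Agent.Helper14.GS

theorem B7 (hA : StA9) (h5 : StB5) (h6 : StB6) : StB7 := by
  intro A hA0
  set κ : ℝ := 1 / (16 * (A + 1)) with hκ
  have hκ0 : 0 < κ := by positivity
  obtain ⟨y₁, hy₁⟩ := hA κ hκ0
  obtain ⟨θ₀, hθ₀1, hθ₀⟩ := hy₁
  set y : ℕ := max y₁ 3 with hy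
  have hy3 : 3 ≤ y := le_max_right _ _
  have hy1 : y₁ ≤ y := le_max_left _ _
  set Λ : ℝ := ∑ q ∈ (Finset.range (y + 1)).filter Nat.Prime, Real.log q with hΛ
  have hΛ1 : 1 ≤ Λ := by
    have hsub : ({2, 3} : Finset ℕ) ⊆ (Finset.range (y + 1)).filter Nat.Prime := by
      intro q hq
      simp only [Finset.mem_insert, Finset.mem_singleton] at hq
      rw [Finset.mem_filter, Finset.mem_range]
      rcases hq with rfl | rfl
      · exact ⟨by omega, Nat.prime_two⟩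
      · exact ⟨by omega, Nat.prime_three⟩
    have h1 : ∑ q ∈ ({2, 3} : Finset ℕ), Real.log q ≤ Λ := by
      apply Finset.sum_le_sum_of_subset_of_nonneg hsub
      intro q _ _
      exact Real.log_natCast_nonneg q
    rw [Finset.sum_pair (by norm_num)] at h1
    have h2 : Real.log ((2 : ℕ) : ℝ) + Real.log ((3 : ℕ) : ℝ) = Real.log 6 := by
      push_cast
      rw [← Real.log_mul (by norm_num) (by norm_num)]
      norm_num
    rw [h2] at h1
    have h3 : 1 ≤ Real.log 6 := by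
      rw [Real.le_log_iff_exp_le (by norm_num)]
      have := Real.exp_one_lt_d9
      linarith
    linarith
  have hΛ0 : 0 < Λ := by linarith
  obtain ⟨c₀, hc₀0, hc₀⟩ := h5 (1 / (4 * Λ)) θ₀ (by positivity)
  obtain ⟨r, hr⟩ := exists_nat_ge (2 * A + 4)
  have hr4 : (4 : ℝ) ≤ r := by linarith
  have hr1 : 1 ≤ r := by
    have : (1 : ℝ) ≤ r := by linarith
    exact_mod_cast this
  have hr0 : (0 : ℝ) < r := by linarith
  -- the threshold
  have t1 : ∀ᶠ X : ℝ in Filter.atTop, 2 * r * Λ ≤ X ^ ((1 : ℝ) / 16) :=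
    (tendsto_rpow_atTop (by norm_num : (0 : ℝ) < 1 / 16)).eventually_ge_atTop _
  have t2 : ∀ᶠ X : ℝ in Filter.atTop, X ^ (-((3 : ℝ) / 16)) < c₀ :=
    (tendsto_rpow_neg_atTop (by norm_num : (0 : ℝ) < 3 / 16)).eventually (gt_mem_nhds hc₀0)
  obtain ⟨X₀, hX₀⟩ := Filter.eventually_atTop.1 (t1.and t2)
  refine ⟨y, hy3, max X₀ 10, le_max_of_le_right (by norm_num), ?_⟩
  intro X hX
  have hX10 : 10 ≤ X := le_trans (le_max_right _ _) hX
  obtain ⟨g1, g2⟩ := hX₀ X (le_trans (le_max_left _ _) hX)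
  have hX0 : 0 < X := by linarith
  have hX1 : 1 ≤ X := by linarith
  -- delta
  set η : ℝ := X ^ (-A) with hη
  have hη0 : 0 < η := Real.rpow_pos_of_pos hX0 _
  have hη1 : η ≤ 1 := Real.rpow_le_one_of_one_le_of_nonpos hX1 (by linarith)
  set X' : ℝ := X + η / 2 with hX'
  have hX'0 : 0 < X' := by positivity
  have hXX' : X ≤ X' := by linarith
  -- E'
  set E : ℕ := ⌊X' / (r * Λ)⌋₊ with hE
  have hrΛ : 0 < (r : ℝ) * Λ := by positivity
  have hEle : (E : ℝ) ≤ X' / (r * Λ) := Nat.floor_le (by positivity)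
  have hElt : X' / (r * Λ) < E + 1 := Nat.lt_floor_add_one _
  have hp15 : 1 ≤ X ^ ((15 : ℝ) / 16) := Real.one_le_rpow hX1 (by norm_num)
  have hEge : X ^ ((15 : ℝ) / 16) ≤ E := by
    have h1 : X = X ^ ((15 : ℝ) / 16) * X ^ ((1 : ℝ) / 16) := by
      rw [← Real.rpow_add hX0]
      norm_num
    have h2 : 2 * X ^ ((15 : ℝ) / 16) ≤ X' / (r * Λ) := by
      rw [le_div_iff₀ hrΛ]
      calc 2 * X ^ ((15 : ℝ) / 16) * (r * Λ) = X ^ ((15 : ℝ) / 16) * (2 * r * Λ) := by ring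
        _ ≤ X ^ ((15 : ℝ) / 16) * X ^ ((1 : ℝ) / 16) := mul_le_mul_of_nonneg_left g1 (by positivity)
        _ = X := h1.symm
        _ ≤ X' := hXX'
    linarith
  have hE1r : (1 : ℝ) ≤ E := le_trans hp15 hEge
  have hE1 : 1 ≤ E := by exact_mod_cast hE1r
  have hE0 : (0 : ℝ) < E := by linarith
  -- L
  set L : ℝ := 2 * r * E * Λ with hL
  have hrEΛ : (r : ℝ) * E * Λ ≤ X' := by
    have := mul_le_mul_of_nonneg_right hEle hrΛ.le
    rw [div_mul_cancel₀ _ hrΛ.ne'] at this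
    linarith
  have hrEΛ1 : 1 ≤ (r : ℝ) * E * Λ := by
    have h1 : (1 : ℝ) ≤ r := by linarith
    calc (1 : ℝ) = 1 * 1 * 1 := by ring
      _ ≤ r * E * Λ := mul_le_mul (mul_le_mul h1 hE1r (by norm_num) hr0.le) hΛ1 (by norm_num)
          (by positivity)
  have hL2 : L = 2 * (r * E * Λ) := by rw [hL]; ring
  have hL0 : 0 < L := by rw [hL2]; linarith
  have hL1 : 1 ≤ L := by rw [hL2]; linarith
  have hL3 : L ≤ 3 * X := by
    rw [hL2]
    have : X' ≤ X + 1 / 2 := by linarith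
    linarith
  -- J
  set δ : ℝ := η / 2 with hδ
  have hδ0 : 0 < δ := by positivity
  set J : ℕ := ⌈L ^ 2 / (4 * δ ^ 2)⌉₊ with hJ
  have hJge : L ^ 2 / (4 * δ ^ 2) ≤ J := Nat.le_ceil _
  have hJlt : (J : ℝ) < L ^ 2 / (4 * δ ^ 2) + 1 := Nat.ceil_lt_add_one (by positivity)
  have hJ1 : 1 ≤ J := by
    have : 0 < J := Nat.ceil_pos.2 (by positivity)
    omega
  have hη2 : η ^ 2 = X ^ (-(2 * A)) := by
    rw [hη, ← Real.rpow_natCast (X ^ (-A)) 2, ← Real.rpow_mul hX0.le]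
    congr 1
    push_cast
    ring
  have hJle : (J : ℝ) ≤ X ^ (2 * A + 3) := by
    have h1 : L ^ 2 / (4 * δ ^ 2) = L ^ 2 * X ^ (2 * A) := by
      have : 4 * δ ^ 2 = η ^ 2 := by rw [hδ]; ring
      rw [this, hη2, Real.rpow_neg hX0.le, div_inv_eq_mul]
    have h2 : L ^ 2 ≤ 9 * X ^ 2 := by
      have := pow_le_pow_left₀ hL0.le hL3 2
      calc L ^ 2 ≤ (3 * X) ^ 2 := this
        _ = 9 * X ^ 2 := by ring
    have h3 : 1 ≤ X ^ (2 * A) := Real.one_le_rpow hX1 (by linarith)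
    have h4 : X ^ (2 * A + 3) = X ^ (2 * A) * X ^ 3 := by
      rw [Real.rpow_add hX0]
      norm_num
    have h5 : L ^ 2 * X ^ (2 * A) ≤ 9 * X ^ 2 * X ^ (2 * A) :=
      mul_le_mul_of_nonneg_right h2 (by positivity)
    have h6 : 1 ≤ X ^ 2 * X ^ (2 * A) := by
      calc (1 : ℝ) = 1 * 1 := by ring
        _ ≤ X ^ 2 * X ^ (2 * A) := mul_le_mul (one_le_pow₀ hX1) h3 (by norm_num) (by positivity)
    have h7 : 10 * (X ^ 2 * X ^ (2 * A)) ≤ X * (X ^ 2 * X ^ (2 * A)) :=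
      mul_le_mul_of_nonneg_right hX10 (by positivity)
    rw [h1] at hJlt
    rw [h4]
    have h8 : X ^ (2 * A) * X ^ 3 = X * (X ^ 2 * X ^ (2 * A)) := by ring
    rw [h8]
    linarith
  -- rho
  set ρ : ℝ := X ^ (-((3 : ℝ) / 16)) with hρ
  have hρ0 : 0 < ρ := Real.rpow_pos_of_pos hX0 _
  suffices hs : ∃ m : ℕ, 1 ≤ m ∧ (∀ p : ℕ, p.Prime → p ∣ m → p ≤ y) ∧ |Real.log m - X'| < δ by
    obtain ⟨m, hm1, hm2, hm3⟩ := hs
    refine ⟨m, hm1, hm2, ?_, ?_⟩
    · have := (abs_lt.1 hm3).1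
      linarith
    · have := (abs_lt.1 hm3).2
      have h9 : X' + δ = X + η := by rw [hX', hδ]; ring
      linarith
  refine h6 y r E J X' δ ρ Λ hΛ hy3 hr1 hE1 hJ1 hX'0 hρ0 hδ0 ?_ ?_ ?_ ?_ ?_
  · push_cast
    rw [le_div_iff₀ hΛ0]
    exact hrEΛ
  · have : δ ≤ 1 := by rw [hδ]; linarith
    linarith
  · have hu : 2 * Real.pi * δ / L ≤ Real.pi := by
      rw [div_le_iff₀ hL0]
      have h1 : 2 * δ ≤ L := by
        have : δ ≤ 1 / 2 := by rw [hδ]; linarith
        linarith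
      nlinarith [Real.pi_pos]
    have hu0 : 0 ≤ 2 * Real.pi * δ / L := by positivity
    have hcos := Real.cos_le_one_sub_mul_cos_sq (x := 2 * Real.pi * δ / L) (by rw [abs_of_nonneg hu0]; exact hu)
    have h2 : 2 / Real.pi ^ 2 * (2 * Real.pi * δ / L) ^ 2 = 8 * δ ^ 2 / L ^ 2 := by
      field_simp
      ring
    rw [h2] at hcos
    have h3 : 8 * δ ^ 2 / L ^ 2 ≤ 1 - Real.cos (2 * Real.pi * δ / L) := by linarith
    calc (2 : ℝ) = L ^ 2 / (4 * δ ^ 2) * (8 * δ ^ 2 / L ^ 2) := by field_simp; norm_num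
      _ ≤ J * (1 - Real.cos (2 * Real.pi * δ / L)) :=
          mul_le_mul hJge h3 (by positivity) (by positivity)
  · intro θ hθ1 hθ2 N
    by_cases hcase : θ ≤ θ₀
    · rcases hc₀ θ hθ1 hcase N with h | h
      · exact ⟨2, Nat.prime_two, by omega, le_trans g2.le (by exact_mod_cast h)⟩
      · exact ⟨3, Nat.prime_three, by omega, le_trans g2.le (by exact_mod_cast h)⟩
    · push Not at hcase
      obtain ⟨q, hq1, hq2, hq3⟩ := hθ₀ θ hcase.le N
      refine ⟨q, hq1, hq2.trans hy1, le_trans ?_ hq3⟩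
      have hθ0 : 0 < θ := by linarith
      have hθX : θ ≤ X ^ (2 * A + 3) := by
        refine hθ2.trans ?_
        refine le_trans (div_le_self (by positivity) hL1) hJle
      have h1 : (X ^ (2 * A + 3)) ^ (-κ) ≤ θ ^ (-κ) :=
        Real.rpow_le_rpow_of_nonpos hθ0 hθX (by linarith)
      refine le_trans ?_ h1
      rw [← Real.rpow_mul hX0.le, hρ]
      apply Real.rpow_le_rpow_of_exponent_le hX1
      rw [hκ]
      have h2 : (2 * A + 3) * (1 / (16 * (A + 1))) ≤ 3 / 16 := by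
        rw [mul_one_div, div_le_div_iff₀ (by positivity) (by norm_num)]
        nlinarith
      linarith
  · have h1 : X ^ ((3 : ℝ) / 4) ≤ 2 * E * ρ := by
      have h2 : X ^ ((3 : ℝ) / 4) = X ^ ((15 : ℝ) / 16) * ρ := by
        rw [hρ, ← Real.rpow_add hX0]
        norm_num
      rw [h2]
      have h3 : X ^ ((15 : ℝ) / 16) ≤ 2 * E := by linarith
      exact mul_le_mul_of_nonneg_right h3 hρ0.le
    have h4 : (X ^ ((3 : ℝ) / 4)) ^ (2 * r) ≤ (2 * E * ρ) ^ (2 * r) :=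
      pow_le_pow_left₀ (by positivity) h1 _
    refine le_trans ?_ h4
    have h5' : (X ^ ((3 : ℝ) / 4)) ^ (2 * r) = X ^ ((3 : ℝ) / 2 * r) := by
      rw [← Real.rpow_natCast, ← Real.rpow_mul hX0.le]
      congr 1
      push_cast
      ring
    rw [h5']
    have h6' : X ^ (2 * A + 6) ≤ X ^ ((3 : ℝ) / 2 * r) := by
      apply Real.rpow_le_rpow_of_exponent_le hX1
      linarith
    have h7 : X ^ (2 * A + 6) = X ^ (2 * A + 3) * X ^ 3 := by
      rw [show 2 * A + 6 = 2 * A + 3 + 3 by ring, Real.rpow_add hX0]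
      norm_num
    have h8 : (4 : ℝ) ≤ X ^ 3 := by
      have := pow_le_pow_left₀ (by norm_num) hX10 3
      linarith
    have h9 : X ^ (2 * A + 3) * 4 ≤ X ^ (2 * A + 3) * X ^ 3 :=
      mul_le_mul_of_nonneg_left h8 (by positivity)
    linarith

end Pool.Agent.Helper95.GS
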