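import Pool.Agent.Helper14.GS.StD

set_option autoImplicit false

/-! Project GS, module D12: numerical choice of the parameters. -/

namespace Pool.Agent.Helper95.GS

open Pool.Agent.Helper14.GS

theorem nat_part (c c₀ k₀ C₁ L T k n K M : ℕ) (hc : 1 ≤ c) (hc₀ : 1 ≤ c₀) (hk₀ : k₀ = 10 * (c₀ + 2))
    (hC₁ : C₁ = 90 * c) (hL : L = 80 * C₁ * k₀) (hT : T = C₁ * L) (hk : k = C₁ ^ 2 * k₀) (hn : 1 ≤ n)
    (hM : M = T * (T + K)) (hK : T + K = k₀ * T * n) :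
    M * (T * c₀ * n + 2 * n + n + (3 * ((2 * k₀ + 1) * n) + 1 + n) * k + 2 * n * T +
      L * c * (3 * ((2 * k₀ + 1) * n))) < T * (K * (K - 1) / 2) := by
  set A := k₀ * T with hA
  have hk30 : 30 ≤ k₀ := by omega
  have hC90 : 90 ≤ C₁ := by omega
  have hL1 : 1 ≤ L := by
    rw [hL]
    have : 0 < 80 * C₁ * k₀ := by positivity
    omega
  have hT1 : 1 ≤ T := by
    rw [hT]
    have : 0 < C₁ * L := by positivity
    omega
  have hA80 : A = 80 * (C₁ ^ 2 * k₀ ^ 2) := by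
    rw [hA, hT, hL]; ring
  have hbig : 240 ≤ A := by
    rw [hA80]
    have h1 : 90 ^ 2 ≤ C₁ ^ 2 := Nat.pow_le_pow_left hC90 2
    have h2 : 30 ^ 2 ≤ k₀ ^ 2 := Nat.pow_le_pow_left hk30 2
    calc 240 ≤ 80 * (90 ^ 2 * 30 ^ 2) := by norm_num
      _ ≤ 80 * (C₁ ^ 2 * k₀ ^ 2) := Nat.mul_le_mul_left _ (Nat.mul_le_mul h1 h2)
  -- the bracket
  set X := T * c₀ + 3 + 7 * (k₀ * k) + 2 * T + 9 * (L * c * k₀) with hX
  have hX10 : 10 * X ≤ 3 * A := by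
    have e1 : 10 * (T * c₀ + 2 * T) = A := by rw [hA, hk₀]; ring
    have e2 : 8 * (70 * (k₀ * k)) = 7 * A := by rw [hA80, hk]; ring
    have e3 : 90 * (L * c * k₀) = A := by rw [hA, hT, hC₁]; ring
    omega
  have hbr : T * c₀ * n + 2 * n + n + (3 * ((2 * k₀ + 1) * n) + 1 + n) * k + 2 * n * T +
      L * c * (3 * ((2 * k₀ + 1) * n)) ≤ n * X := by
    have f1 : 3 * ((2 * k₀ + 1) * n) + 1 + n ≤ 7 * k₀ * n := by nlinarith
    have f2 : 3 * ((2 * k₀ + 1) * n) ≤ 9 * k₀ * n := by nlinarith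
    have g1 := Nat.mul_le_mul_right k f1
    have g2 := Nat.mul_le_mul_left (L * c) f2
    calc T * c₀ * n + 2 * n + n + (3 * ((2 * k₀ + 1) * n) + 1 + n) * k + 2 * n * T +
          L * c * (3 * ((2 * k₀ + 1) * n))
        ≤ T * c₀ * n + 2 * n + n + 7 * k₀ * n * k + 2 * n * T + L * c * (9 * k₀ * n) := by omega
      _ = n * X := by rw [hX]; ring
  have hmain : M * (n * X) < T * (K * (K - 1) / 2) := by
    have hK29 : 29 * T ≤ K := by
      have h1 : 30 * T ≤ A * n := by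
        calc 30 * T = 30 * T * 1 := by ring
          _ ≤ k₀ * T * n := Nat.mul_le_mul (Nat.mul_le_mul_right T hk30) hn
          _ = A * n := by rw [hA]
      omega
    have hev : 2 * (K * (K - 1) / 2) = K * (K - 1) := Nat.two_mul_div_two_of_even (Nat.even_mul_pred_self K)
    have h10 : 10 * (M * (n * X)) ≤ 3 * (T * (T + K) ^ 2) := by
      calc 10 * (M * (n * X)) = M * n * (10 * X) := by ring
        _ ≤ M * n * (3 * A) := Nat.mul_le_mul_left _ hX10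
        _ = 3 * (T * (T + K) * (k₀ * T * n)) := by rw [hM, hA]; ring
        _ = 3 * (T * (T + K) ^ 2) := by rw [← hK]; ring
    have h5 : 3 * (T + K) ^ 2 < 5 * (K * (K - 1)) := by
      obtain ⟨R, hR⟩ : ∃ R, K = R + 1 := ⟨K - 1, by omega⟩
      have hR' : K - 1 = R := by omega
      rw [hR', hR]
      have h29 : 29 * (T + (R + 1)) ≤ 30 * (R + 1) := by omega
      have hR28 : 28 ≤ R := by omega
      have hsq : (29 * (T + (R + 1))) ^ 2 ≤ (30 * (R + 1)) ^ 2 := Nat.pow_le_pow_left h29 2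
      nlinarith
    have h6 : 3 * (T * (T + K) ^ 2) < 10 * (T * (K * (K - 1) / 2)) := by
      calc 3 * (T * (T + K) ^ 2) = T * (3 * (T + K) ^ 2) := by ring
        _ < T * (5 * (K * (K - 1))) := Nat.mul_lt_mul_of_pos_left h5 hT1
        _ = T * (5 * (2 * (K * (K - 1) / 2))) := by rw [hev]
        _ = 10 * (T * (K * (K - 1) / 2)) := by ring
    omega
  exact lt_of_le_of_lt (Nat.mul_le_mul_left M hbr) hmain

theorem nat_le_exp (n : ℕ) : (n : ℝ) ≤ Real.exp n := by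
  have := Real.add_one_le_exp (n : ℝ)
  linarith

theorem D12 : StD12 := by
  intro c c₀ hc hc₀
  obtain ⟨k₀, hk₀⟩ : ∃ k₀, k₀ = 10 * (c₀ + 2) := ⟨_, rfl⟩
  obtain ⟨C₁, hC₁⟩ : ∃ C₁, C₁ = 90 * c := ⟨_, rfl⟩
  obtain ⟨L, hL⟩ : ∃ L, L = 80 * C₁ * k₀ := ⟨_, rfl⟩
  obtain ⟨T, hT⟩ : ∃ T, T = C₁ * L := ⟨_, rfl⟩
  obtain ⟨k, hk⟩ : ∃ k, k = C₁ ^ 2 * k₀ := ⟨_, rfl⟩
  have hk30 : 30 ≤ k₀ := by omega
  have hC90 : 90 ≤ C₁ := by omega
  have hL1 : 1 ≤ L := by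
    rw [hL]
    have : 0 < 80 * C₁ * k₀ := by positivity
    omega
  have hT1 : 1 ≤ T := by
    rw [hT]
    have : 0 < C₁ * L := by positivity
    omega
  have hk1 : 1 ≤ k := by
    rw [hk]
    have : 0 < C₁ ^ 2 * k₀ := by positivity
    omega
  have hCL : C₁ ≤ L := by
    rw [hL]
    nlinarith
  refine ⟨L, T, k, k₀, k₀ * T, 2 * k * L ^ 2, hL1, hT1, hk1, ?_⟩
  intro n hn
  have hLL : L ≤ L ^ 2 := by nlinarith
  have hkL : L ^ 2 ≤ k * L ^ 2 := Nat.le_mul_of_pos_left _ hk1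
  have hL2n : L ^ 2 ≤ n := by nlinarith
  have h2Ln : 2 * L ≤ n := by nlinarith
  have hkLn : k * L ^ 2 ≤ n := by nlinarith
  have hn1 : 1 ≤ n := le_trans hL1 (le_trans hLL hL2n)
  have hTK : T ≤ k₀ * T * n := by
    calc T = 1 * T * 1 := by ring
      _ ≤ k₀ * T * n := Nat.mul_le_mul (Nat.mul_le_mul_right T (by omega)) hn1
  obtain ⟨K, hK⟩ : ∃ K, T + K = k₀ * T * n := ⟨k₀ * T * n - T, by omega⟩
  have hMe : T * (T + K) = k * n * L ^ 2 := by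
    rw [hK, hk, hT]; ring
  have hS : 2 * k₀ * n ≤ (2 * k₀ + 1) * n + 1 - L ^ 2 := by
    have : (2 * k₀ + 1) * n = 2 * k₀ * n + n := by ring
    omega
  refine ⟨K, by omega, ?_, ?_, ?_, hMe.le, ?_⟩
  · nlinarith
  · calc 2 * L ^ 2 * (k * n) = 2 * k₀ * n * T ^ 2 := by rw [hk, hT]; ring
      _ ≤ _ := Nat.mul_le_mul_right _ hS
  · calc 2 * (k * n) = 2 * k₀ * n * (C₁ * C₁) := by rw [hk]; ring
      _ ≤ 2 * k₀ * n * (C₁ * L) := Nat.mul_le_mul_left _ (Nat.mul_le_mul_left _ hCL)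
      _ = 2 * k₀ * n * T := by rw [hT]
      _ ≤ _ := Nat.mul_le_mul_right _ hS
  intro B d hB1 hB hd1 hd
  obtain ⟨M, hM⟩ : ∃ M, M = k * n * L ^ 2 := ⟨_, rfl⟩
  rw [← hM]
  have hNat := nat_part c c₀ k₀ C₁ L T k n K M hc hc₀ hk₀ hC₁ hL hT hk hn1 (by rw [hM, hMe]) hK
  have hexp1 : (2 : ℝ) ≤ Real.exp 1 := by
    have := Real.add_one_le_exp (1 : ℝ)
    linarith
  have hexp3 : Real.exp 1 ≤ 3 := by
    have := Real.exp_one_lt_d9
    linarith
  have e1 : d ^ (T * M) ≤ Real.exp (((T * M : ℕ) : ℝ) * (c₀ * n)) := by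
    rw [Real.exp_nat_mul]
    exact pow_le_pow_left₀ (by linarith) hd _
  have hnr : (n : ℝ) ≤ Real.exp n := nat_le_exp n
  have e2 : ((M.factorial : ℕ) : ℝ) ≤ Real.exp ((M : ℝ) * (2 * n)) := by
    rw [Real.exp_nat_mul]
    have h1 : ((M.factorial : ℕ) : ℝ) ≤ ((M ^ M : ℕ) : ℝ) := by exact_mod_cast Nat.factorial_le_pow M
    refine h1.trans ?_
    push_cast
    apply pow_le_pow_left₀ (by positivity)
    have h2 : M ≤ n * n := by
      rw [hM]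
      calc k * n * L ^ 2 = n * (k * L ^ 2) := by ring
        _ ≤ n * n := Nat.mul_le_mul_left _ hkLn
    calc (M : ℝ) ≤ ((n * n : ℕ) : ℝ) := by exact_mod_cast h2
      _ = (n : ℝ) * n := by push_cast; ring
      _ ≤ Real.exp n * Real.exp n := mul_le_mul hnr hnr (by positivity) (Real.exp_pos _).le
      _ = Real.exp (2 * n) := by rw [← Real.exp_add]; ring_nf
  have e3 : (2 : ℝ) ≤ Real.exp n := by
    refine hexp1.trans (Real.exp_le_exp.2 ?_)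
    exact_mod_cast hn1
  have e4 : (2 : ℝ) ^ ((3 * ((2 * k₀ + 1) * n) + 1 + n) * k) ≤
      Real.exp (((3 * ((2 * k₀ + 1) * n) + 1 + n) * k : ℕ) : ℝ) := by
    have : Real.exp (((3 * ((2 * k₀ + 1) * n) + 1 + n) * k : ℕ) : ℝ) =
        Real.exp 1 ^ ((3 * ((2 * k₀ + 1) * n) + 1 + n) * k) := by
      rw [← Real.exp_nat_mul, mul_one]
    rw [this]
    exact pow_le_pow_left₀ (by norm_num) hexp1 _
  have e5 : (2 * (L : ℝ) * B) ^ T ≤ Real.exp ((T : ℝ) * (2 * n)) := by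
    rw [Real.exp_nat_mul]
    apply pow_le_pow_left₀ (by positivity)
    have h1 : (2 * (L : ℝ)) ≤ n := by exact_mod_cast h2Ln
    calc 2 * (L : ℝ) * B ≤ Real.exp n * Real.exp n :=
          mul_le_mul (h1.trans hnr) hB (by linarith) (Real.exp_pos _).le
      _ = Real.exp (2 * n) := by rw [← Real.exp_add]; ring_nf
  have e6 : 2 * ((2 : ℝ) ^ ((3 * ((2 * k₀ + 1) * n) + 1 + n) * k) * (2 * (L : ℝ) * B) ^ T *
      Real.exp ((L : ℝ) * c * (3 * ((2 * k₀ + 1) * n)))) ≤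
      Real.exp ((n : ℝ) + ((((3 * ((2 * k₀ + 1) * n) + 1 + n) * k : ℕ) : ℝ) + (T : ℝ) * (2 * n) +
        (L : ℝ) * c * (3 * ((2 * k₀ + 1) * n)))) := by
    rw [Real.exp_add, Real.exp_add, Real.exp_add]
    apply mul_le_mul e3 _ (by positivity) (Real.exp_pos _).le
    apply mul_le_mul_of_nonneg_right _ (Real.exp_pos _).le
    exact mul_le_mul e4 e5 (by positivity) (Real.exp_pos _).le
  have e7 := pow_le_pow_left₀ (by positivity) e6 M
  rw [← Real.exp_nat_mul] at e7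
  have e8 : d ^ (T * M) * ((M.factorial : ℕ) : ℝ) *
      (2 * ((2 : ℝ) ^ ((3 * ((2 * k₀ + 1) * n) + 1 + n) * k) * (2 * (L : ℝ) * B) ^ T *
      Real.exp ((L : ℝ) * c * (3 * ((2 * k₀ + 1) * n))))) ^ M ≤
      Real.exp ((M * (T * c₀ * n + 2 * n + n + (3 * ((2 * k₀ + 1) * n) + 1 + n) * k + 2 * n * T +
      L * c * (3 * ((2 * k₀ + 1) * n))) : ℕ) : ℝ) := by
    have : Real.exp ((M * (T * c₀ * n + 2 * n + n + (3 * ((2 * k₀ + 1) * n) + 1 + n) * k + 2 * n * T +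
      L * c * (3 * ((2 * k₀ + 1) * n))) : ℕ) : ℝ) =
        Real.exp (((T * M : ℕ) : ℝ) * (c₀ * n)) * Real.exp ((M : ℝ) * (2 * n)) *
        Real.exp ((M : ℝ) * ((n : ℝ) + ((((3 * ((2 * k₀ + 1) * n) + 1 + n) * k : ℕ) : ℝ) +
          (T : ℝ) * (2 * n) + (L : ℝ) * c * (3 * ((2 * k₀ + 1) * n))))) := by
      rw [← Real.exp_add, ← Real.exp_add]
      congr 1
      push_cast
      ring
    rw [this]
    apply mul_le_mul (mul_le_mul e1 e2 (by positivity) (Real.exp_pos _).le) e7 (by positivity)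
    positivity
  refine lt_of_le_of_lt e8 ?_
  have e9 : Real.exp ((M * (T * c₀ * n + 2 * n + n + (3 * ((2 * k₀ + 1) * n) + 1 + n) * k + 2 * n * T +
      L * c * (3 * ((2 * k₀ + 1) * n))) : ℕ) : ℝ) < Real.exp ((T * (K * (K - 1) / 2) : ℕ) : ℝ) := by
    apply Real.exp_lt_exp.2
    exact_mod_cast hNat
  refine lt_of_lt_of_le e9 ?_
  have e10 : Real.exp ((T * (K * (K - 1) / 2) : ℕ) : ℝ) = Real.exp 1 ^ (T * (K * (K - 1) / 2)) := by
    rw [← Real.exp_nat_mul, mul_one]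
  rw [e10]
  exact pow_le_pow_left₀ (Real.exp_pos _).le hexp3 _

end Pool.Agent.Helper95.GS
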