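import Pool.Agent.Helper79.GS.St1

/-!
# Project GS, module AUG: sets of left vertices which can be matched form a matroid
-/

set_option autoImplicit false

namespace Pool.Agent.Helper95.GS

open Pool.Agent.Helper79.GS Pool.Agent.Helper19.SK

private theorem exists_free {P : Type} (M M' : Finset (P × P))
    (h2 : Set.InjOn Prod.snd (M : Set (P × P))) (hc : M'.card < M.card) :
    ∃ e ∈ M, ∀ f ∈ M', f.2 ≠ e.2 := by
  classical
  by_contra hcon
  push Not at hcon
  have hsub : M.image Prod.snd ⊆ M'.image Prod.snd := by
    intro x hx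
    obtain ⟨e, he, rfl⟩ := Finset.mem_image.1 hx
    obtain ⟨f, hf, hfe⟩ := hcon e he
    exact Finset.mem_image.2 ⟨f, hf, hfe⟩
  have h3 := Finset.card_le_card hsub
  rw [Finset.card_image_of_injOn h2] at h3
  have h4 : (M'.image Prod.snd).card ≤ M'.card := Finset.card_image_le
  omega

private theorem aug {P : Type} (E : P → P → Prop) (M : Finset (P × P))
    (hM : ∀ e ∈ M, E e.1 e.2) (h1 : Set.InjOn Prod.fst (M : Set (P × P)))
    (h2 : Set.InjOn Prod.snd (M : Set (P × P))) [DecidableEq (P × P)] :
    ∀ (n : ℕ) (M' : Finset (P × P)), (M \ M').card = n →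
      (∀ e ∈ M', E e.1 e.2) → Set.InjOn Prod.fst (M' : Set (P × P)) →
      Set.InjOn Prod.snd (M' : Set (P × P)) → M'.card < M.card →
      ∃ y, y ∉ Prod.fst '' (M' : Set (P × P)) ∧ ∃ M'' : Finset (P × P), (∀ e ∈ M'', E e.1 e.2) ∧
        Set.InjOn Prod.fst (M'' : Set (P × P)) ∧ Set.InjOn Prod.snd (M'' : Set (P × P)) ∧
        Prod.fst '' (M'' : Set (P × P)) = insert y (Prod.fst '' (M' : Set (P × P))) := by
  intro n
  induction n using Nat.strong_induction_on with
  | _ n ih =>
    intro M' hn hE i1 i2 hc
    obtain ⟨e, he, hfree⟩ := exists_free M M' h2 hc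
    have heM' : e ∉ M' := fun h => hfree e h rfl
    by_cases hy : e.1 ∈ Prod.fst '' (M' : Set (P × P))
    · obtain ⟨f, hf, hfe⟩ := hy
      have hf' : f ∈ M' := hf
      have hne : f ≠ e := fun h => heM' (h ▸ hf')
      have key : Prod.fst '' ((insert e (M'.erase f) : Finset (P × P)) : Set (P × P)) =
          Prod.fst '' (M' : Set (P × P)) := by
        ext x
        constructor
        · rintro ⟨g, hg, rfl⟩
          rcases Finset.mem_insert.1 (Finset.mem_coe.1 hg) with rfl | hg
          · exact ⟨f, hf, hfe⟩
          · exact ⟨g, Finset.mem_of_mem_erase hg, rfl⟩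
        · rintro ⟨g, hg, rfl⟩
          by_cases hgf : g = f
          · exact ⟨e, by simp, by rw [hgf, hfe]⟩
          · exact ⟨g, by simpa [hgf] using Or.inr (Finset.mem_coe.1 hg), rfl⟩
      have hlt : (M \ insert e (M'.erase f)).card < (M \ M').card := by
        refine Finset.card_lt_card ⟨?_, ?_⟩
        · intro g hg
          obtain ⟨hg1, hg2⟩ := Finset.mem_sdiff.1 hg
          refine Finset.mem_sdiff.2 ⟨hg1, fun hgM' => hg2 ?_⟩
          by_cases hgf : g = f
          · have : g = e := h1 hg1 he (by rw [hgf, hfe])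
            rw [this]; exact Finset.mem_insert_self _ _
          · exact Finset.mem_insert_of_mem (Finset.mem_erase.2 ⟨hgf, hgM'⟩)
        · intro hsub
          have h3 := hsub (Finset.mem_sdiff.2 ⟨he, heM'⟩)
          exact (Finset.mem_sdiff.1 h3).2 (Finset.mem_insert_self _ _)
      have hcard : (insert e (M'.erase f)).card = M'.card := by
        rw [Finset.card_insert_of_notMem (fun h => heM' (Finset.mem_of_mem_erase h)),
          Finset.card_erase_of_mem hf']
        have := Finset.card_pos.2 ⟨f, hf'⟩
        omega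
      have j1 : Set.InjOn Prod.fst ((insert e (M'.erase f) : Finset (P × P)) : Set (P × P)) := by
        intro a ha b hb hab
        rcases Finset.mem_insert.1 (Finset.mem_coe.1 ha) with rfl | ha'
        · rcases Finset.mem_insert.1 (Finset.mem_coe.1 hb) with rfl | hb'
          · rfl
          · obtain ⟨hb1, hb2⟩ := Finset.mem_erase.1 hb'
            exact absurd (i1 (Finset.mem_coe.2 hb2) hf (by rw [← hab, hfe])) hb1
        · obtain ⟨ha1, ha2⟩ := Finset.mem_erase.1 ha'
          rcases Finset.mem_insert.1 (Finset.mem_coe.1 hb) with rfl | hb'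
          · exact absurd (i1 (Finset.mem_coe.2 ha2) hf (by rw [hab, hfe])) ha1
          · exact i1 (Finset.mem_coe.2 ha2) (Finset.mem_coe.2 (Finset.mem_of_mem_erase hb')) hab
      have j2 : Set.InjOn Prod.snd ((insert e (M'.erase f) : Finset (P × P)) : Set (P × P)) := by
        intro a ha b hb hab
        rcases Finset.mem_insert.1 (Finset.mem_coe.1 ha) with rfl | ha'
        · rcases Finset.mem_insert.1 (Finset.mem_coe.1 hb) with rfl | hb'
          · rfl
          · exact absurd hab.symm (hfree b (Finset.mem_of_mem_erase hb'))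
        · rcases Finset.mem_insert.1 (Finset.mem_coe.1 hb) with rfl | hb'
          · exact absurd hab (hfree a (Finset.mem_of_mem_erase ha'))
          · exact i2 (Finset.mem_coe.2 (Finset.mem_of_mem_erase ha'))
              (Finset.mem_coe.2 (Finset.mem_of_mem_erase hb')) hab
      have hE1 : ∀ g ∈ insert e (M'.erase f), E g.1 g.2 := by
        intro g hg
        rcases Finset.mem_insert.1 hg with rfl | hg
        · exact hM _ he
        · exact hE _ (Finset.mem_of_mem_erase hg)
      obtain ⟨y, hy1, M'', k1, k2, k3, k4⟩ := ih _ (by omega) (insert e (M'.erase f)) rfl hE1 j1 j2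
        (by omega)
      rw [key] at hy1 k4
      exact ⟨y, hy1, M'', k1, k2, k3, k4⟩
    · refine ⟨e.1, hy, insert e M', ?_, ?_, ?_, ?_⟩
      · intro g hg
        rcases Finset.mem_insert.1 hg with rfl | hg
        · exact hM _ he
        · exact hE _ hg
      · intro a ha b hb hab
        rcases Finset.mem_insert.1 (Finset.mem_coe.1 ha) with rfl | ha'
        · rcases Finset.mem_insert.1 (Finset.mem_coe.1 hb) with rfl | hb'
          · rfl
          · exact absurd ⟨b, hb', hab.symm⟩ hy
        · rcases Finset.mem_insert.1 (Finset.mem_coe.1 hb) with rfl | hb'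
          · exact absurd ⟨a, ha', hab⟩ hy
          · exact i1 (Finset.mem_coe.2 ha') (Finset.mem_coe.2 hb') hab
      · intro a ha b hb hab
        rcases Finset.mem_insert.1 (Finset.mem_coe.1 ha) with rfl | ha'
        · rcases Finset.mem_insert.1 (Finset.mem_coe.1 hb) with rfl | hb'
          · rfl
          · exact absurd hab.symm (hfree b hb')
        · rcases Finset.mem_insert.1 (Finset.mem_coe.1 hb) with rfl | hb'
          · exact absurd hab (hfree a ha')
          · exact i2 (Finset.mem_coe.2 ha') (Finset.mem_coe.2 hb') hab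
      · rw [Finset.coe_insert, Set.image_insert_eq]

theorem hAUG : StAUG := by
  classical
  intro P E M M' hM h1 h2 hE i1 i2 hc
  exact aug E M hM h1 h2 _ M' rfl hE i1 i2 hc

end Pool.Agent.Helper95.GS
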